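import Pool.Agent.Lib.MP_0d68fc_nt.Final

/-! Almost all short intervals hold a sum of three positive cubes. -/

set_option autoImplicit false

namespace Pool.Agent.Lib.MP_0d68fc_nt.Old.ShortIntervals

theorem result : ∀ ε : ℝ, 0 < ε → ∃ C : ℝ, ∀ X H : ℕ, 1 ≤ H →
    (Set.ncard {n : ℕ | 1 ≤ n ∧ n ≤ X ∧ ¬ ∃ x y z : ℕ, 0 < x ∧ 0 < y ∧ 0 < z ∧
        n < x ^ 3 + y ^ 3 + z ^ 3 ∧ x ^ 3 + y ^ 3 + z ^ 3 ≤ n + H} : ℝ) ≤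
      C * (X : ℝ) ^ ε * ((X : ℝ) ^ (10 / 9 : ℝ) / H + (X : ℝ) ^ (8 / 9 : ℝ)) := by
  classical
  intro ε hε
  obtain ⟨C, hC⟩ := Pool.Agent.Lib.MP_0d68fc_nt.main hε
  refine ⟨C, fun X H hH => le_trans (le_of_eq ?_) (hC X H hH)⟩
  rw [← Set.ncard_coe_finset]
  congr 2
  ext n
  simp only [Pool.Agent.Lib.MP_0d68fc_nt.Hit, Finset.coe_filter, Finset.mem_Icc, Set.mem_setOf_eq,
    and_assoc]

end Pool.Agent.Lib.MP_0d68fc_nt.Old.ShortIntervals
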